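import Mathlib
import Pool.Agent.H98.QP3

set_option autoImplicit false
open MeasureTheory Filter Topology
open Pool.Agent.H98.QP

namespace Pool.Agent.Results.MP_8d4b21_pr.Mixing

/-- transition operator -/
noncomputable def Pop (p : UnitAddCircle → ℝ) (α : ℝ) (φ : UnitAddCircle → ℝ) (y : UnitAddCircle) : ℝ :=
  p y * φ (y + α) + (1 - p y) * φ (y - α)

/-- `Q` is the law on path space of the Markov chain with initial law `ν` and operator `Pop p α` -/
def IsChain (p : UnitAddCircle → ℝ) (α : ℝ) (ν : Measure UnitAddCircle)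
    (Q : Measure (ℕ → UnitAddCircle)) : Prop :=
  Q.map (fun ω => ω 0) = ν ∧
  ∀ (n : ℕ) (F : (ℕ → UnitAddCircle) → ℝ) (g : UnitAddCircle → ℝ), Measurable F → Measurable g →
    (∃ C, ∀ ω, |F ω| ≤ C) → (∃ C, ∀ y, |g y| ≤ C) →
    (∀ ω ω', (∀ i ≤ n, ω i = ω' i) → F ω = F ω') →
    ∫ ω, F ω * g (ω (n + 1)) ∂Q = ∫ ω, F ω * Pop p α g (ω n) ∂Q

/-- `n`-fold time shift -/
def shift (n : ℕ) (ω : ℕ → UnitAddCircle) : ℕ → UnitAddCircle := fun i => ω (n + i)

def box (N : ℕ) (s : ℕ → Set T) : Set (ℕ → T) := {ω | ∀ i < N, ω i ∈ s i}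

def boxes : Set (Set (ℕ → T)) := {B | ∃ N s, (∀ i, MeasurableSet (s i)) ∧ B = box N s}

lemma box_meas (N : ℕ) {s : ℕ → Set T} (hs : ∀ i, MeasurableSet (s i)) : MeasurableSet (box N s) := by
  have : box N s = ⋂ i, ⋂ (_ : i < N), (fun ω => ω i) ⁻¹' s i := by ext ω; simp [box]
  rw [this]
  exact MeasurableSet.iInter fun i => MeasurableSet.iInter fun _ => measurable_pi_apply i (hs i)

lemma boxes_pi : IsPiSystem boxes := by
  classical
  rintro _ ⟨N, s, hs, rfl⟩ _ ⟨M, t, ht, rfl⟩ -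
  refine ⟨N + M, fun i => (if i < N then s i else Set.univ) ∩ (if i < M then t i else Set.univ),
    fun i => MeasurableSet.inter (by split_ifs; exacts [hs i, .univ])
      (by split_ifs; exacts [ht i, .univ]), ?_⟩
  ext ω
  simp only [box, Set.mem_inter_iff, Set.mem_setOf_eq]
  constructor
  · rintro ⟨h1, h2⟩ i _
    constructor <;> split_ifs with h
    exacts [h1 i h, trivial, h2 i h, trivial]
  · intro h
    exact ⟨fun i hi => by simpa [hi] using (h i (by omega)).1,
      fun i hi => by simpa [hi] using (h i (by omega)).2⟩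

lemma boxes_gen : (inferInstance : MeasurableSpace (ℕ → T)) = MeasurableSpace.generateFrom boxes := by
  classical
  refine le_antisymm ?_ (MeasurableSpace.generateFrom_le ?_)
  · refine iSup_le fun i => ?_
    rintro _ ⟨s, hs, rfl⟩
    refine MeasurableSpace.measurableSet_generateFrom ⟨i + 1, fun j => if j = i then s else Set.univ,
      fun j => by beta_reduce; split_ifs; exacts [hs, .univ], ?_⟩
    ext ω
    simp only [box, Set.mem_preimage, Set.mem_setOf_eq]
    constructor
    · intro h j _; split_ifs with hj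
      exacts [hj ▸ h, trivial]
    · intro h; simpa using h i (by omega)
  · rintro _ ⟨N, s, hs, rfl⟩; exact box_meas N hs

lemma shift_meas (n : ℕ) : Measurable (shift n) :=
  measurable_pi_lambda _ fun _ => measurable_pi_apply _

lemma ext_lim (Q : Measure (ℕ → T)) [IsFiniteMeasure Q] (μ : ℕ → Measure (ℕ → T)) (c : ℝ)
    (hle : ∀ n, μ n ≤ Q)
    (h : ∀ B ∈ boxes, Tendsto (fun n => (μ n).real B) atTop (𝓝 (c * Q.real B)))
    (B : Set (ℕ → T)) (hB : MeasurableSet B) :
    Tendsto (fun n => (μ n).real B) atTop (𝓝 (c * Q.real B)) := by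
  have hf : ∀ n, IsFiniteMeasure (μ n) := fun n => isFiniteMeasure_of_le Q (hle n)
  induction B, hB using MeasurableSpace.induction_on_inter boxes_gen boxes_pi with
  | empty => simp
  | basic B hB => exact h B hB
  | compl B hB ih =>
    have hu := h Set.univ ⟨0, fun _ => Set.univ, fun _ => .univ, by simp [box]⟩
    simp only [measureReal_compl hB, mul_sub]
    exact hu.sub ih
  | iUnion f hd hm ih =>
    have hs : Summable fun i => Q.real (f i) := summable_measure_toReal hm hd
    simp only [measureReal_def] at ih hs ⊢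
    have e : ∀ (m : Measure (ℕ → T)) [IsFiniteMeasure m],
        (m (⋃ i, f i)).toReal = ∑' i, (m (f i)).toReal := fun m _ => by
      rw [measure_iUnion hd hm, ENNReal.tsum_toReal_eq fun i => measure_ne_top _ _]
    simp only [e]
    rw [← tsum_mul_left]
    refine tendsto_tsum_of_dominated_convergence hs ih (Eventually.of_forall fun n k => ?_)
    rw [Real.norm_eq_abs, abs_of_nonneg ENNReal.toReal_nonneg]
    exact ENNReal.toReal_mono (measure_ne_top _ _) (hle n _)

def Dep (n : ℕ) (F : (ℕ → T) → ℝ) : Prop :=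
  Measurable F ∧ (∃ C, ∀ ω, |F ω| ≤ C) ∧ ∀ ω ω', (∀ i ≤ n, ω i = ω' i) → F ω = F ω'

lemma Dep.mono {n m : ℕ} {F : (ℕ → T) → ℝ} (h : Dep n F) (hnm : n ≤ m) : Dep m F :=
  ⟨h.1, h.2.1, fun ω ω' e => h.2.2 ω ω' fun i hi => e i (hi.trans hnm)⟩

lemma Dep.mul {n : ℕ} {F : (ℕ → T) → ℝ} (h : Dep n F) {g : T → ℝ} (hg : BM g) :
    Dep n fun ω => F ω * g (ω n) := by
  obtain ⟨h1, ⟨C, h2⟩, h3⟩ := h
  obtain ⟨h4, D, h5⟩ := hg
  refine ⟨h1.mul (h4.comp (measurable_pi_apply n)), ⟨C * D, fun ω => ?_⟩, fun ω ω' e => ?_⟩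
  · rw [abs_mul]; exact mul_le_mul (h2 _) (h5 _) (abs_nonneg _) ((abs_nonneg _).trans (h2 ω))
  · beta_reduce; rw [h3 ω ω' e, e n le_rfl]

lemma dep_one (n : ℕ) : Dep n fun _ => 1 := ⟨measurable_const, ⟨1, by simp⟩, fun _ _ _ => rfl⟩

variable {p : T → ℝ} {α : ℝ} {ν : Measure T} {Q : Measure (ℕ → T)}

lemma mk1 (hQ : IsChain p α ν Q) {n : ℕ} {F : (ℕ → T) → ℝ} (h : Dep n F) {g : T → ℝ} (hg : BM g) :
    ∫ ω, F ω * g (ω (n + 1)) ∂Q = ∫ ω, F ω * P p α g (ω n) ∂Q :=
  hQ.2 n F g h.1 hg.1 h.2.1 hg.2 h.2.2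

lemma mkk (hp : Continuous p) (hp0 : ∀ x, 0 < p x ∧ p x < 1) (hQ : IsChain p α ν Q) {n : ℕ}
    {F : (ℕ → T) → ℝ} (h : Dep n F) (k : ℕ) : ∀ {g : T → ℝ}, BM g →
    ∫ ω, F ω * g (ω (n + k)) ∂Q = ∫ ω, F ω * (P p α)^[k] g (ω n) ∂Q := by
  induction k with
  | zero => intro g _; rfl
  | succ k ih =>
    intro g hg
    rw [← add_assoc, mk1 hQ (h.mono (Nat.le_add_right n k)) hg, ih (hg.P hp hp0)]; rfl

lemma boxF (hp : Continuous p) (hp0 : ∀ x, 0 < p x ∧ p x < 1) (hQ : IsChain p α ν Q) (N : ℕ) :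
    ∀ s : ℕ → Set T, (∀ i, MeasurableSet (s i)) → ∃ Φ, BM Φ ∧ ∀ n F, Dep n F →
      ∫ ω, F ω * (box N s).indicator 1 (shift n ω) ∂Q = ∫ ω, F ω * Φ (ω n) ∂Q := by
  induction N with
  | zero => intro s _; exact ⟨fun _ => 1, BM.const 1, fun n F _ => by simp [box]⟩
  | succ N ih =>
    intro s hs
    obtain ⟨Φ, hΦ, h⟩ := ih (fun i => s (i + 1)) fun i => hs _
    have b0 : BM ((s 0).indicator 1) := ⟨measurable_one.indicator (hs 0), 1, fun x => by
      by_cases hx : x ∈ s 0 <;> simp [hx]⟩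
    refine ⟨fun x => (s 0).indicator 1 x * P p α Φ x, b0.mul (hΦ.P hp hp0), fun n F hF => ?_⟩
    have h1 := h (n + 1) _ ((hF.mul b0).mono (Nat.le_succ n))
    rw [mk1 hQ (hF.mul b0) hΦ] at h1
    simp only [← mul_assoc]
    rw [← h1]
    refine integral_congr_ae (ae_of_all _ fun ω => ?_)
    have e : shift n ω ∈ box (N + 1) s ↔ ω n ∈ s 0 ∧ shift (n + 1) ω ∈ box N fun i => s (i + 1) := by
      simp only [box, shift, Set.mem_setOf_eq, Nat.forall_lt_succ_left, add_zero]
      refine and_congr_right fun _ => forall₂_congr fun i _ => ?_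
      rw [show n + (i + 1) = n + 1 + i by omega]
    by_cases h2 : ω n ∈ s 0 <;> by_cases h3 : shift (n + 1) ω ∈ box N fun i => s (i + 1) <;>
      simp [Set.indicator, e, h2, h3]

lemma lip {f : T → ℝ} (hf : ContDiff ℝ 1 fun t : ℝ => f t) :
    ∃ L, 0 ≤ L ∧ ∀ (x : T) (t : ℝ), |f (x + t) - f x| ≤ L * |t| := by
  have hper : Function.Periodic (fun t : ℝ => f t) 1 := fun t => by simp
  have hd : Function.Periodic (deriv fun t : ℝ => f t) 1 := fun t => by
    rw [← deriv_comp_add_const]; congr 1; ext s; exact hper s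
  obtain ⟨L, hL⟩ := (hd.isBounded_of_continuous one_ne_zero
    (hf.continuous_deriv le_rfl)).exists_norm_le
  have hL' : ∀ t, ‖deriv (fun t : ℝ => f t) t‖ ≤ L := fun t => hL _ ⟨t, rfl⟩
  refine ⟨L, (norm_nonneg _).trans (hL' 0), fun x t => ?_⟩
  obtain ⟨s, rfl⟩ := QuotientAddGroup.mk_surjective x
  have := Convex.norm_image_sub_le_of_norm_deriv_le (f := fun t : ℝ => f t) (s := Set.univ)
    (fun y _ => hf.differentiable one_ne_zero y) (fun y _ => hL' y) convex_univ
    (Set.mem_univ s) (Set.mem_univ (s + t))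
  simpa using this

theorem result (α : ℝ) (hα : Irrational α) (p : UnitAddCircle → ℝ)
    (hp : ContDiff ℝ 1 fun t : ℝ => p t) (hp0 : ∀ y, 0 < p y ∧ p y < 1)
    (hsym : ∫ y, Real.log (p y) = ∫ y, Real.log (1 - p y))
    (ν : Measure UnitAddCircle) [IsProbabilityMeasure ν]
    (hν : ∀ φ : UnitAddCircle → ℝ, Continuous φ → ∫ y, Pop p α φ y ∂ν = ∫ y, φ y ∂ν)
    (Q : Measure (ℕ → UnitAddCircle)) [IsProbabilityMeasure Q] (hQ : IsChain p α ν Q) :
    (∀ n, MeasurePreserving (shift n) Q Q) ∧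
    ∀ A B : Set (ℕ → UnitAddCircle), MeasurableSet A → MeasurableSet B →
      Tendsto (fun n => Q.real (A ∩ shift n ⁻¹' B)) atTop (𝓝 (Q.real A * Q.real B)) := by
  have hc : Continuous p := (QuotientAddGroup.isQuotientMap_mk _).continuous_iff.2 hp.continuous
  have hq : Continuous fun x => 1 - p x := by fun_prop
  have hr : Rev ν α p fun x => 1 - p x := rev_meas ν hc hq (fun x => (hp0 x).1.le)
    (fun x => (sub_pos.2 (hp0 x).2).le) (rev_cont hα ν hc hp0 hsym hν)
  obtain ⟨L1, h1, h1'⟩ := lip (f := fun x => Real.log (p x)) (hp.log fun t => (hp0 _).1.ne')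
  obtain ⟨L2, h2, h2'⟩ := lip (f := fun x => Real.log (1 - p x))
    ((contDiff_const.sub hp).log fun t => (sub_pos.2 (hp0 _).2).ne')
  have hqe := qe_two (L := L1 + L2) hα hr hc hq (fun x => (hp0 x).1) (fun x => sub_pos.2 (hp0 x).2)
    (by linarith) (fun x t => (h1' x t).trans (by gcongr; linarith))
    (fun x t => (h2' x t).trans (by gcongr; linarith)) hsym
  have law0 : ∀ g, BM g → ∫ ω, g (ω 0) ∂Q = ∫ x, g x ∂ν := fun g hg => by
    rw [← hQ.1, integral_map (measurable_pi_apply 0).aemeasurable hg.1.aestronglyMeasurable]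
  have lawn : ∀ n g, BM g → ∫ ω, g (ω n) ∂Q = ∫ x, g x ∂ν := fun n g hg => by
    have := mkk hc hp0 hQ (dep_one 0) n hg
    simp only [one_mul, zero_add] at this
    rw [this, law0 _ (hg.Pn hc hp0 n), Pn_stat hc hp0 hr hg]
  have ind : ∀ (A B : Set (ℕ → T)) (n : ℕ), MeasurableSet A → MeasurableSet B →
      Q.real (A ∩ shift n ⁻¹' B) = ∫ ω, A.indicator 1 ω * B.indicator 1 (shift n ω) ∂Q := by
    intro A B n hA hB
    rw [← integral_indicator_one (hA.inter (shift_meas n hB))]
    refine integral_congr_ae (ae_of_all _ fun ω => ?_)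
    by_cases h1 : ω ∈ A <;> by_cases h2 : shift n ω ∈ B <;> simp [Set.indicator, h1, h2]
  have sb : ∀ N s (hs : ∀ i, MeasurableSet (s i)) (Φ : T → ℝ), BM Φ → (∀ n F, Dep n F →
      ∫ ω, F ω * (box N s).indicator 1 (shift n ω) ∂Q = ∫ ω, F ω * Φ (ω n) ∂Q) →
      ∀ n, Q.real (shift n ⁻¹' box N s) = ∫ x, Φ x ∂ν := by
    intro N s hs Φ hΦ h n
    have := ind Set.univ _ n .univ (box_meas N hs)
    rw [Set.univ_inter] at this
    rw [this, ← lawn n Φ hΦ]
    simpa using h n _ (dep_one n)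
  have mp : ∀ n, MeasurePreserving (shift n) Q Q := by
    intro n
    refine ⟨shift_meas n, ext_of_generate_finite boxes boxes_gen boxes_pi ?_ (by
      rw [Measure.map_apply (shift_meas n) .univ]; simp)⟩
    rintro _ ⟨N, s, hs, rfl⟩
    obtain ⟨Φ, hΦ, h⟩ := boxF hc hp0 hQ N s hs
    rw [Measure.map_apply (shift_meas n) (box_meas N hs),
      ← measureReal_eq_measureReal_iff, sb N s hs Φ hΦ h n, ← sb N s hs Φ hΦ h 0]
    congr 1; ext ω; simp [box, shift]
  refine ⟨mp, fun A B hA hB => ?_⟩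
  have step1 : ∀ A ∈ boxes, ∀ B ∈ boxes,
      Tendsto (fun n => Q.real (A ∩ shift n ⁻¹' B)) atTop (𝓝 (Q.real A * Q.real B)) := by
    rintro _ ⟨M, t, ht, rfl⟩ _ ⟨N, s, hs, rfl⟩
    obtain ⟨Φ, hΦ, h⟩ := boxF hc hp0 hQ N s hs
    have hA := box_meas M ht
    have dA : Dep M ((box M t).indicator 1) := ⟨measurable_one.indicator hA, ⟨1, fun ω => by
      by_cases hx : ω ∈ box M t <;> simp [hx]⟩, fun ω ω' e => by
        have : ω ∈ box M t ↔ ω' ∈ box M t := forall₂_congr fun i hi => by rw [e i hi.le]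
        by_cases hx : ω' ∈ box M t <;> simp [Set.indicator, this, hx]⟩
    have cB : Q.real (box N s) = ∫ x, Φ x ∂ν := by
      rw [← sb N s hs Φ hΦ h 0]; congr 1; ext ω; simp [box, shift]
    set c := Q.real (box N s)
    have bf : BM fun x => Φ x - c := hΦ.sub (BM.const c)
    have dec := decay hc hp0 hr hqe bf (by
      rw [integral_sub (hΦ.int ν) (integrable_const _), ← cB]; simp)
    rw [← tendsto_add_atTop_iff_nat M, tendsto_iff_norm_sub_tendsto_zero]
    refine squeeze_zero (fun _ => norm_nonneg _) (fun k => ?_) (by simpa using dec.sqrt)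
    have iF : ∀ g, BM g → ∀ n, Integrable (fun ω => (box M t).indicator 1 ω * g (ω n)) Q :=
      fun g hg n => by
        obtain ⟨a3, D, a4⟩ := hg
        refine Integrable.of_bound (dA.1.mul (a3.comp (measurable_pi_apply n))).aestronglyMeasurable
          D (ae_of_all _ fun ω => ?_)
        by_cases hx : ω ∈ box M t
        · simpa [hx] using a4 _
        · simpa [hx] using (abs_nonneg _).trans (a4 0)
    have e : Q.real (box M t ∩ shift (k + M) ⁻¹' box N s) - Q.real (box M t) * c =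
        ∫ ω, (box M t).indicator 1 ω * (P p α)^[k] (fun x => Φ x - c) (ω M) ∂Q := by
      rw [← mkk hc hp0 hQ dA k bf, ind _ _ _ hA (box_meas N hs), h _ _ (dA.mono (by omega)),
        add_comm k M, ← integral_indicator_one hA, ← integral_mul_const,
        ← integral_sub (iF Φ hΦ _) (iF _ (BM.const c) 0)]
      refine integral_congr_ae (ae_of_all _ fun ω => ?_)
      ring
    have bu := bf.Pn (α := α) hc hp0 k
    set u := (P p α)^[k] fun x => Φ x - c
    have ba : BM fun x => |u x| := ⟨bu.1.abs, by simpa using bu.2⟩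
    rw [e]
    calc _ ≤ ∫ ω, |u (ω M)| ∂Q := by
          have mM : Measurable fun ω : ℕ → T => |u (ω M)| := ba.1.comp (measurable_pi_apply M)
          refine norm_integral_le_of_norm_le (Integrable.of_bound mM.aestronglyMeasurable
                ba.2.choose (ae_of_all _ fun ω => ba.2.choose_spec _)) (ae_of_all _ fun ω => ?_)
          by_cases hx : ω ∈ box M t <;> simp [hx]
      _ = ∫ x, |u x| ∂ν := lawn M _ ba
      _ ≤ _ := by
          refine Real.le_sqrt_of_sq_le ?_
          have mm : MemLp (fun x => |u x|) 2 ν := MemLp.of_bound ba.1.aestronglyMeasurable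
            ba.2.choose (ae_of_all _ ba.2.choose_spec)
          have := ProbabilityTheory.variance_nonneg (fun x => |u x|) ν
          rw [ProbabilityTheory.variance_eq_sub mm] at this
          simp only [Pi.pow_apply, sq_abs] at this
          linarith
  have step2 : ∀ B ∈ boxes,
      Tendsto (fun n => Q.real (A ∩ shift n ⁻¹' B)) atTop (𝓝 (Q.real A * Q.real B)) := by
    intro B hB
    have := ext_lim Q (fun n => Q.restrict (shift n ⁻¹' B)) (Q.real B)
      (fun n => Measure.restrict_le_self) (fun A hA => by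
        obtain ⟨M, t, ht, rfl⟩ := id hA
        simp only [measureReal_restrict_apply (box_meas M ht)]
        rw [mul_comm]; exact step1 _ hA B hB) A hA
    simpa only [measureReal_restrict_apply hA, mul_comm] using this
  have e : ∀ n (B : Set (ℕ → T)), MeasurableSet B →
      ((Q.restrict A).map (shift n)).real B = Q.real (A ∩ shift n ⁻¹' B) := fun n B hB => by
    rw [map_measureReal_apply (shift_meas n) hB, measureReal_restrict_apply (shift_meas n hB),
      Set.inter_comm]
  have := ext_lim Q (fun n => (Q.restrict A).map (shift n)) (Q.real A) (fun n => by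
      conv_rhs => rw [← (mp n).map_eq]
      exact Measure.map_mono Measure.restrict_le_self (shift_meas n)) (fun B hB => by
        obtain ⟨M, t, ht, rfl⟩ := id hB
        simp only [e _ _ (box_meas M ht)]
        exact step2 _ hB) B hB
  simpa only [e _ _ hB] using this

end Pool.Agent.Results.MP_8d4b21_pr.Mixing
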